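import Pool.Agent.H45.K3.Gf
import Pool.Agent.H56.Inv.Cmp

set_option autoImplicit false

/-!
# Series with nonnegative coefficients and the candidates for `c_1, c_2, c_3`
-/

namespace Pool.Agent.H45.K3

open PowerSeries Finset Pool.H56.Inv

/-- the variable `q` as a constant series. -/
noncomputable def q : PowerSeries (Polynomial ℤ) := C (Polynomial.X : Polynomial ℤ)

/-- the substitution `z ↦ q z`. -/
noncomputable def sg : PowerSeries (Polynomial ℤ) →+* PowerSeries (Polynomial ℤ) :=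
  rescale (Polynomial.X : Polynomial ℤ)

theorem coeff_sg (S : PowerSeries (Polynomial ℤ)) (n : ℕ) :
    coeff n (sg S) = Polynomial.X ^ n * coeff n S := by
  unfold sg
  rw [coeff_rescale]

theorem sg_q : sg q = q := by
  unfold sg q
  exact rescale_C' _ _

theorem sg_X : sg X = q * X := by
  unfold sg q
  rw [PowerSeries.rescale_X]

theorem E_mul (i : ℕ) : E i * (1 - q ^ i * X) = 1 := by
  have h := geo_mul (Polynomial.X ^ i) (d := 1) one_pos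
  unfold E q
  rw [map_pow, pow_one] at h
  exact h

theorem P_mul (e : ℕ) : P e * (1 - q ^ e * X ^ 2) = 1 := by
  have h := geo_mul (Polynomial.X ^ e) (d := 2) two_pos
  unfold P q
  rw [map_pow] at h
  exact h

theorem sg_E (i : ℕ) : sg (E i) = E (i + 1) := by
  have h1 := congrArg sg (E_mul i)
  rw [map_mul, map_sub, map_mul, map_pow, map_one, sg_q, sg_X] at h1
  have h2 := E_mul (i + 1)
  calc sg (E i) = sg (E i) * (E (i + 1) * (1 - q ^ (i + 1) * X)) := by rw [h2, mul_one]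
    _ = (sg (E i) * (1 - q ^ i * (q * X))) * E (i + 1) := by ring
    _ = _ := by rw [h1, one_mul]

theorem sg_P (e : ℕ) : sg (P e) = P (e + 2) := by
  have h1 := congrArg sg (P_mul e)
  rw [map_mul, map_sub, map_mul, map_pow, map_pow, map_one, sg_q, sg_X] at h1
  have h2 := P_mul (e + 2)
  calc sg (P e) = sg (P e) * (P (e + 2) * (1 - q ^ (e + 2) * X ^ 2)) := by rw [h2, mul_one]
    _ = (sg (P e) * (1 - q ^ e * (q * X) ^ 2)) * P (e + 2) := by ring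
    _ = _ := by rw [h1, one_mul]

/-- series all of whose coefficients are polynomials with nonnegative coefficients. -/
def PS (S : PowerSeries (Polynomial ℤ)) : Prop := ∀ n, NN (coeff n S)

theorem PS.add {S T : PowerSeries (Polynomial ℤ)} (hS : PS S) (hT : PS T) : PS (S + T) := by
  intro n
  rw [map_add]
  exact (hS n).add (hT n)

theorem PS.mul {S T : PowerSeries (Polynomial ℤ)} (hS : PS S) (hT : PS T) : PS (S * T) := by
  intro n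
  rw [coeff_mul]
  exact NN.sum _ _ fun p _ => (hS _).mul (hT _)

theorem PS.one : PS 1 := by
  intro n
  rw [coeff_one]
  split_ifs
  · exact NN.one
  · exact NN.zero

theorem PS.q : PS q := by
  intro n
  unfold K3.q
  rw [coeff_C]
  split_ifs
  · have := NN.X_pow 1
    rwa [pow_one] at this
  · exact NN.zero

theorem PS.X : PS (X : PowerSeries (Polynomial ℤ)) := by
  intro n
  rw [coeff_X]
  split_ifs
  · exact NN.one
  · exact NN.zero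

theorem PS.pow {S : PowerSeries (Polynomial ℤ)} (hS : PS S) (m : ℕ) : PS (S ^ m) := by
  induction m with
  | zero => rw [pow_zero]; exact PS.one
  | succ m ih => rw [pow_succ]; exact ih.mul hS

theorem PS.geo (m d : ℕ) : PS (geo (Polynomial.X ^ m) d) := by
  intro n
  unfold K3.geo
  rw [coeff_mk]
  split_ifs
  · rw [← pow_mul]
    exact NN.X_pow _
  · exact NN.zero

theorem PS.E (i : ℕ) : PS (E i) := PS.geo _ _

theorem PS.P (e : ℕ) : PS (P e) := PS.geo _ _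

/-- the series of `c_1`. -/
noncomputable def S1 : PowerSeries (Polynomial ℤ) := q ^ 2 * X ^ 4 * (E 0 * E 1 * P 1)

/-- the series of `c_2`. -/
noncomputable def S2 : PowerSeries (Polynomial ℤ) :=
  (X ^ 5 * (q ^ 4 + q ^ 6) + X ^ 8 * q ^ 8 - X ^ 9 * (q ^ 8 + q ^ 10)) *
    (E 0 * E 1 * E 2 * (P 1 * P 2 * P 3))

/-- the numerator of `c_3`. -/
noncomputable def N3 : PowerSeries (Polynomial ℤ) :=
  X ^ 8 * q ^ 8 * (1 + q + 3 * q ^ 2 + 2 * q ^ 3 + 4 * q ^ 4 + 2 * q ^ 5 + 3 * q ^ 6 + q ^ 7 + q ^ 8)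
  + X ^ 9 * q ^ 11 * (1 + q + q ^ 2 + q ^ 3 + q ^ 4 + q ^ 5)
  - X ^ 10 * q ^ 10 * (1 + 2 * q + 3 * q ^ 2 + 5 * q ^ 3 + 6 * q ^ 4 + 6 * q ^ 5 + 6 * q ^ 6
      + 5 * q ^ 7 + 3 * q ^ 8 + 2 * q ^ 9 + q ^ 10)
  - X ^ 11 * q ^ 14 * (1 + q + q ^ 2 + q ^ 3 + q ^ 4 + q ^ 5)
  + X ^ 12 * q ^ 13 * (1 + q + 3 * q ^ 2 + 2 * q ^ 3 + 5 * q ^ 4 + 4 * q ^ 5 + 5 * q ^ 6
      + 2 * q ^ 7 + 3 * q ^ 8 + q ^ 9 + q ^ 10)
  - X ^ 13 * q ^ 17 * (1 + q + q ^ 2 + q ^ 3 + q ^ 4 + q ^ 5)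
  + X ^ 15 * q ^ 20 * (1 + q + q ^ 2 + q ^ 3 + q ^ 4 + q ^ 5)
  - X ^ 16 * q ^ 21 * (1 + q ^ 2 + q ^ 3 + q ^ 4 + q ^ 6)

/-- the series of `c_3`. -/
noncomputable def S3 : PowerSeries (Polynomial ℤ) :=
  N3 * (E 0 * E 1 * E 2 * E 3 * (P 1 * P 2 * P 3 * P 3 * P 4 * P 5))

theorem PS_S1 : PS S1 :=
  ((PS.q.pow 2).mul (PS.X.pow 4)).mul (((PS.E 0).mul (PS.E 1)).mul (PS.P 1))

theorem PS_S2 : PS S2 := by
  have h : S2 = E 0 * E 1 * E 2 * (P 1 * P 3 * (X ^ 5 * (q ^ 4 + q ^ 6) * (1 + q ^ 2 * X ^ 2)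
      + X ^ 8 * q ^ 8 * P 2)) := by
    unfold S2
    have h2 := P_mul 2
    have e : P 1 * P 3 * (X ^ 5 * (q ^ 4 + q ^ 6) * (1 + q ^ 2 * X ^ 2) + X ^ 8 * q ^ 8 * P 2)
        = P 1 * P 3 * (X ^ 5 * (q ^ 4 + q ^ 6) * (1 + q ^ 2 * X ^ 2) * (P 2 * (1 - q ^ 2 * X ^ 2))
          + X ^ 8 * q ^ 8 * P 2) := by rw [h2, mul_one]
    rw [e]
    ring
  rw [h]
  refine (((PS.E 0).mul (PS.E 1)).mul (PS.E 2)).mul (((PS.P 1).mul (PS.P 3)).mul
    ((((PS.X.pow 5).mul ((PS.q.pow 4).add (PS.q.pow 6))).mul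
      (PS.one.add ((PS.q.pow 2).mul (PS.X.pow 2)))).add
      (((PS.X.pow 8).mul (PS.q.pow 8)).mul (PS.P 2))))

theorem PS_S3 : PS S3 := by
  have h1 := P_mul 1
  have h2 := P_mul 2
  have h3 := P_mul 3
  have h4 := P_mul 4
  have h5 := P_mul 5
  have h : S3 = E 0 * E 1 * E 2 * E 3 * (
      X ^ 9 * q ^ 11 * (1 + q + q ^ 2 + q ^ 3 + q ^ 4 + q ^ 5) * (1 + q ^ 3 * X ^ 2)
        * (P 1 * P 2 * P 4 * P 5)
      + X ^ 8 * q ^ 10 * (P 1 * P 2 * P 3 * P 3 * P 4 * P 5)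
      + X ^ 8 * q ^ 11 * (P 1 * P 2 * P 3 * P 4 * P 5)
      + X ^ 8 * q ^ 12 * (P 1 * P 2 * P 3 * P 5)
      + X ^ 8 * q ^ 12 * (P 2 * P 3 * P 3 * P 4 * P 5)
      + X ^ 8 * q ^ 13 * (P 2 * P 3 * P 3 * P 5)
      + X ^ 8 * q ^ 14 * (P 3 * P 3 * P 4 * P 5)
      + X ^ 6 * q ^ 7 * (1 + q ^ 2) * (1 + q ^ 4) * (X ^ 2 * q * (1 + q + q ^ 2) + X ^ 4 * q ^ 5)
        * (P 1 * P 3 * P 5)
      + X ^ 12 * q ^ 18 * (1 + q ^ 3 * X ^ 2) * (P 1 * P 2 * P 3 * P 4 * P 5)) := by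
    have e1 : P 1 * P 2 * P 4 * P 5 = P 1 * P 2 * P 3 * P 3 * P 4 * P 5
        * ((1 - q ^ 3 * X ^ 2) * (1 - q ^ 3 * X ^ 2)) := by
      linear_combination (-(P 1 * P 2 * P 4 * P 5) * (P 3 * (1 - q ^ 3 * X ^ 2) + 1)) * h3
    have e2 : P 1 * P 2 * P 3 * P 4 * P 5 = P 1 * P 2 * P 3 * P 3 * P 4 * P 5
        * (1 - q ^ 3 * X ^ 2) := by
      linear_combination (-(P 1 * P 2 * P 3 * P 4 * P 5)) * h3
    have e3 : P 1 * P 2 * P 3 * P 5 = P 1 * P 2 * P 3 * P 3 * P 4 * P 5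
        * ((1 - q ^ 3 * X ^ 2) * (1 - q ^ 4 * X ^ 2)) := by
      linear_combination (-(P 1 * P 2 * P 3 * P 5) * (P 4 * (1 - q ^ 4 * X ^ 2))) * h3
        - (P 1 * P 2 * P 3 * P 5) * h4
    have e4 : P 2 * P 3 * P 3 * P 4 * P 5 = P 1 * P 2 * P 3 * P 3 * P 4 * P 5
        * (1 - q ^ 1 * X ^ 2) := by
      linear_combination (-(P 2 * P 3 * P 3 * P 4 * P 5)) * h1
    have e5 : P 2 * P 3 * P 3 * P 5 = P 1 * P 2 * P 3 * P 3 * P 4 * P 5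
        * ((1 - q ^ 1 * X ^ 2) * (1 - q ^ 4 * X ^ 2)) := by
      linear_combination (-(P 2 * P 3 * P 3 * P 5) * (P 4 * (1 - q ^ 4 * X ^ 2))) * h1
        - (P 2 * P 3 * P 3 * P 5) * h4
    have e6 : P 3 * P 3 * P 4 * P 5 = P 1 * P 2 * P 3 * P 3 * P 4 * P 5
        * ((1 - q ^ 1 * X ^ 2) * (1 - q ^ 2 * X ^ 2)) := by
      linear_combination (-(P 3 * P 3 * P 4 * P 5) * (P 2 * (1 - q ^ 2 * X ^ 2))) * h1
        - (P 3 * P 3 * P 4 * P 5) * h2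
    have e7 : P 1 * P 3 * P 5 = P 1 * P 2 * P 3 * P 3 * P 4 * P 5
        * ((1 - q ^ 2 * X ^ 2) * (1 - q ^ 3 * X ^ 2) * (1 - q ^ 4 * X ^ 2)) := by
      linear_combination (-(P 1 * P 3 * P 5) * (P 3 * (1 - q ^ 3 * X ^ 2)) *
        (P 4 * (1 - q ^ 4 * X ^ 2))) * h2
        - (P 1 * P 3 * P 5) * (P 4 * (1 - q ^ 4 * X ^ 2)) * h3 - (P 1 * P 3 * P 5) * h4
    unfold S3 N3
    generalize E 0 * E 1 * E 2 * E 3 = EE
    linear_combination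
      (-(EE * (X ^ 9 * q ^ 11 * (1 + q + q ^ 2 + q ^ 3 + q ^ 4 + q ^ 5)
        * (1 + q ^ 3 * X ^ 2)))) * e1
      - (EE * (X ^ 8 * q ^ 11)) * e2 - (EE * (X ^ 8 * q ^ 12)) * e3 - (EE * (X ^ 8 * q ^ 12)) * e4
      - (EE * (X ^ 8 * q ^ 13)) * e5 - (EE * (X ^ 8 * q ^ 14)) * e6
      - (EE * (X ^ 6 * q ^ 7 * (1 + q ^ 2) * (1 + q ^ 4)
        * (X ^ 2 * q * (1 + q + q ^ 2) + X ^ 4 * q ^ 5))) * e7
      - (EE * (X ^ 12 * q ^ 18 * (1 + q ^ 3 * X ^ 2))) * e2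
  rw [h]
  have pq : ∀ m, PS (q ^ m) := fun m => PS.q.pow m
  have px : ∀ m, PS ((X : PowerSeries (Polynomial ℤ)) ^ m) := fun m => PS.X.pow m
  have p1 := PS.P 1
  have p2 := PS.P 2
  have p3 := PS.P 3
  have p4 := PS.P 4
  have p5 := PS.P 5
  have pe : PS (E 0 * E 1 * E 2 * E 3) := (((PS.E 0).mul (PS.E 1)).mul (PS.E 2)).mul (PS.E 3)
  have p6 : PS (1 + q + q ^ 2 + q ^ 3 + q ^ 4 + q ^ 5) :=
    ((((PS.one.add PS.q).add (pq 2)).add (pq 3)).add (pq 4)).add (pq 5)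
  have p7 : PS (1 + q ^ 3 * X ^ 2) := PS.one.add ((pq 3).mul (px 2))
  have p8 : PS (X ^ 2 * q * (1 + q + q ^ 2) + X ^ 4 * q ^ 5) :=
    (((px 2).mul PS.q).mul ((PS.one.add PS.q).add (pq 2))).add ((px 4).mul (pq 5))
  refine pe.mul (PS.add (PS.add (PS.add (PS.add (PS.add (PS.add (PS.add (PS.add ?_ ?_) ?_) ?_)
    ?_) ?_) ?_) ?_) ?_)
  · exact ((((px 9).mul (pq 11)).mul p6).mul p7).mul (((p1.mul p2).mul p4).mul p5)
  · exact ((px 8).mul (pq 10)).mul (((((p1.mul p2).mul p3).mul p3).mul p4).mul p5)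
  · exact ((px 8).mul (pq 11)).mul ((((p1.mul p2).mul p3).mul p4).mul p5)
  · exact ((px 8).mul (pq 12)).mul (((p1.mul p2).mul p3).mul p5)
  · exact ((px 8).mul (pq 12)).mul ((((p2.mul p3).mul p3).mul p4).mul p5)
  · exact ((px 8).mul (pq 13)).mul (((p2.mul p3).mul p3).mul p5)
  · exact ((px 8).mul (pq 14)).mul (((p3.mul p3).mul p4).mul p5)
  · exact (((((px 6).mul (pq 7)).mul (PS.one.add (pq 2))).mul (PS.one.add (pq 4))).mul p8).mul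
      ((p1.mul p3).mul p5)
  · exact (((px 12).mul (pq 18)).mul p7).mul ((((p1.mul p2).mul p3).mul p4).mul p5)

end Pool.Agent.H45.K3
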